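import Pool.Agent.Run7.h293.AN.Defs
import Pool.Agent.Run7.h293.CN.A
import Pool.Agent.W571.FM.Frob

/-!
# Commutants, lengths and polarizations
-/

set_option autoImplicit false
set_option linter.unusedSectionVars false

namespace Run7.h293.AN

open Module Pool.Agent.W569.FM Run7.h293.TS Run7.h293.CN

variable {F K V V' : Type} [Field F] [Field K] [TopologicalSpace K] [AddCommGroup V]
  [Module K V] [AddCommGroup V'] [Module K V']

/-- the admissible subgroups have no other stable subspaces -/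
theorem lift [CharZero K] [T1Space K] [FiniteDimensional K V] {X : Rep F K V} {ℓ : ℕ}
    {H : Subgroup (GF F)} (h : Admissible X ℓ H) {U : Submodule K V} (hU : X.StableUnder H U) :
    X.StableUnder ⊤ U := by
  rcases h with rfl | ⟨hF, hu, hc, hH⟩
  · exact hU
  · exact stable_top hF hu hc hH hU

theorem conj_fix {X : Rep F K V} {ℓ r : ℕ} {Q : Fin r → Ideal (OO F)} (hR : Represents X ℓ Q)
    {U : Submodule K V} (hU : X.StableUnder ⊤ U) (h : ∀ i, U ≤ fixI X (Q i)) {σ : GF F}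
    (hσ : AwayInertia ℓ σ) {x : V} (hx : x ∈ U) : X.ρ σ x = x := by
  rcases hR.bad σ hσ with h1 | ⟨i, g, hg⟩
  · rw [h1, Module.End.one_apply]
  · have h2 := h i (hU g⁻¹ (Subgroup.mem_top _) x hx) _ hg
    have h3 := congrArg (X.ρ g) h2
    rw [CN.rho_inv, ← Module.End.mul_apply, ← map_mul, ← Module.End.mul_apply, ← map_mul,
      show g * (g⁻¹ * σ * g) * g⁻¹ = σ by group] at h3
    exact h3

/-- **Homomorphisms.** -/
theorem homs_le [FiniteDimensional K V] [FiniteDimensional K V'] {X : Rep F K V} {X' : Rep F K V'}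
    {ℓ r : ℕ} {Q : Fin r → Ideal (OO F)} (hR : Represents X' ℓ Q) (hF : NothingUnramified X' ℓ) :
    finrank K (homs X X' ⊤) ≤ ∑ i, drop X (Q i) * drop X' (Q i) := by
  classical
  choose C hC using fun i => (fixI X (Q i)).exists_isCompl
  let Φ : homs X X' ⊤ →ₗ[K] (∀ i, C i →ₗ[K] V' ⧸ fixI X' (Q i)) :=
    { toFun := fun f i => (fixI X' (Q i)).mkQ ∘ₗ (f : V →ₗ[K] V') ∘ₗ (C i).subtype
      map_add' := fun f g => by
        ext i x
        simp
      map_smul' := fun c f => by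
        ext i x
        simp }
  have hinj : Function.Injective Φ := by
    rw [← LinearMap.ker_eq_bot, LinearMap.ker_eq_bot']
    rintro ⟨f, hf⟩ h0
    apply Subtype.ext
    change f = 0
    have h1 : ∀ i x, f x ∈ fixI X' (Q i) := by
      intro i x
      have h2 : x ∈ fixI X (Q i) ⊔ C i := by
        rw [(hC i).sup_eq_top]
        exact Submodule.mem_top
      obtain ⟨a, ha, c, hc, rfl⟩ := Submodule.mem_sup.1 h2
      rw [map_add]
      refine Submodule.add_mem _ ?_ ?_
      · intro σ hσ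
        rw [← hf σ (Subgroup.mem_top σ), ha σ hσ]
      · have h3 := LinearMap.congr_fun (congrFun h0 i) ⟨c, hc⟩
        exact (Submodule.Quotient.mk_eq_zero _).1 h3
    have h4 : X'.StableUnder ⊤ (LinearMap.range f) := by
      rintro g _ _ ⟨x, rfl⟩
      exact ⟨X.ρ g x, hf g (Subgroup.mem_top g) x⟩
    have h5 := hF (LinearMap.range f) h4 fun σ hσ x hx => conj_fix hR h4 (by
      rintro i _ ⟨y, rfl⟩
      exact h1 i y) hσ hx
    exact LinearMap.range_eq_bot.1 h5
  have h6 := LinearMap.finrank_le_finrank_of_injective hinj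
  refine h6.trans (le_of_eq ?_)
  rw [Module.finrank_pi_fintype]
  refine Finset.sum_congr rfl fun i _ => ?_
  rw [Module.finrank_linearMap]
  have h7 := Submodule.finrank_add_eq_of_isCompl (hC i)
  have h8 := (fixI X' (Q i)).finrank_quotient_add_finrank
  unfold drop
  rw [show finrank K (C i) = finrank K V - finrank K (fixI X (Q i)) by omega,
    show finrank K (V' ⧸ fixI X' (Q i)) = finrank K V' - finrank K (fixI X' (Q i)) by omega]

/-- the graph of a homomorphism -/
theorem homs_lift [CharZero K] [T1Space K] [IsTopologicalRing K] [FiniteDimensional K V]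
    [FiniteDimensional K V'] {X : Rep F K V} {X' : Rep F K V'} {ℓ : ℕ} {H : Subgroup (GF F)}
    (h : Admissible (sum X X') ℓ H) : homs X X' H = homs X X' ⊤ := by
  apply le_antisymm
  · intro f hf g _ x
    let G : Submodule K (V × V') := LinearMap.range (LinearMap.prod LinearMap.id f)
    have h1 : (sum X X').StableUnder H G := by
      rintro a ha _ ⟨y, rfl⟩
      refine ⟨X.ρ a y, ?_⟩
      change (X.ρ a y, f (X.ρ a y)) = (X.ρ a y, X'.ρ a (f y))
      rw [hf a ha]
    obtain ⟨y, hy⟩ := lift h h1 g (Subgroup.mem_top g) (x, f x) ⟨x, rfl⟩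
    have h2 : (y, f y) = (X.ρ g x, X'.ρ g (f x)) := hy
    rw [Prod.mk.injEq] at h2
    rw [← h2.1, h2.2]
  · intro f hf g _ x
    exact hf g (Subgroup.mem_top g) x

/-! ### Lengths -/

/-- the inequality for the codimensions of the fixed vectors -/
theorem step_le [FiniteDimensional K V] {A U' U : Submodule K V} (h : U' ≤ U) :
    finrank K U' - finrank K (U' ⊓ A : Submodule K V) ≤
      finrank K U - finrank K (U ⊓ A : Submodule K V) := by
  have h1 := Submodule.finrank_sup_add_finrank_inf_eq U' (U ⊓ A)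
  have h2 : U' ⊓ (U ⊓ A) = U' ⊓ A := by
    rw [← inf_assoc, inf_eq_left.2 h]
  rw [h2] at h1
  have h3 := Submodule.finrank_mono (sup_le h (inf_le_left : U ⊓ A ≤ U))
  have h4 := Submodule.finrank_mono (inf_le_left : U' ⊓ A ≤ U')
  have h5 := Submodule.finrank_mono (inf_le_left : U ⊓ A ≤ U)
  omega

theorem step_lt [FiniteDimensional K V] {A U' U : Submodule K V} (h : U' ≤ U)
    (hne : ¬ U ≤ U' ⊔ (U ⊓ A)) :
    finrank K U' - finrank K (U' ⊓ A : Submodule K V) <
      finrank K U - finrank K (U ⊓ A : Submodule K V) := by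
  have h1 := Submodule.finrank_sup_add_finrank_inf_eq U' (U ⊓ A)
  have h2 : U' ⊓ (U ⊓ A) = U' ⊓ A := by
    rw [← inf_assoc, inf_eq_left.2 h]
  rw [h2] at h1
  have h3 : finrank K (U' ⊔ (U ⊓ A) : Submodule K V) < finrank K U :=
    Submodule.finrank_lt_finrank_of_lt (lt_of_le_not_ge (sup_le h inf_le_left) hne)
  have h4 := Submodule.finrank_mono (inf_le_left : U' ⊓ A ≤ U')
  have h5 := Submodule.finrank_mono (inf_le_left : U ⊓ A ≤ U)
  omega

/-- the total codimension of the fixed vectors in `U` -/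
noncomputable def tot (X : Rep F K V) {r : ℕ} (Q : Fin r → Ideal (OO F)) (U : Submodule K V) : ℕ :=
  ∑ i, (finrank K U - finrank K (U ⊓ fixI X (Q i) : Submodule K V))

theorem tot_top (X : Rep F K V) {r : ℕ} (Q : Fin r → Ideal (OO F)) :
    tot X Q ⊤ = ∑ i, drop X (Q i) := by
  unfold tot drop
  refine Finset.sum_congr rfl fun i _ => ?_
  rw [finrank_top, top_inf_eq]

theorem tot_lt [FiniteDimensional K V] {X : Rep F K V} {ℓ r : ℕ} {Q : Fin r → Ideal (OO F)}
    (hR : Represents X ℓ Q) {U' U : Submodule K V} (hU' : X.StableUnder ⊤ U')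
    (hU : X.StableUnder ⊤ U) (h : U' < U)
    (hne : ∃ σ, AwayInertia ℓ σ ∧ ∃ x ∈ U, X.ρ σ x - x ∉ U') : tot X Q U' < tot X Q U := by
  obtain ⟨σ, hσ, x, hx, hn⟩ := hne
  unfold tot
  rcases hR.bad σ hσ with h1 | ⟨i, g, hg⟩
  · exfalso
    apply hn
    rw [h1, Module.End.one_apply, sub_self]
    exact U'.zero_mem
  · refine Finset.sum_lt_sum (fun j _ => step_le h.le) ⟨i, Finset.mem_univ i, step_lt h.le ?_⟩
    intro hle
    obtain ⟨u, hu, z, hz, huz⟩ := Submodule.mem_sup.1 (hle (hU g⁻¹ (Subgroup.mem_top _) x hx))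
    apply hn
    have h2 : X.ρ (g⁻¹ * σ * g) (X.ρ g⁻¹ x) - X.ρ g⁻¹ x ∈ U' := by
      rw [← huz, map_add, hz.2 _ hg, add_sub_add_right_eq_sub]
      exact U'.sub_mem (hU' _ (Subgroup.mem_top _) u hu) hu
    have h3 := hU' g (Subgroup.mem_top g) _ h2
    rw [map_sub, CN.rho_inv, ← Module.End.mul_apply, ← map_mul, ← Module.End.mul_apply, ← map_mul,
      show g * (g⁻¹ * σ * g) * g⁻¹ = σ by group] at h3
    exact h3

/-- **Lengths.** -/
theorem length_le [FiniteDimensional K V] {X : Rep F K V} {ℓ r : ℕ} {Q : Fin r → Ideal (OO F)}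
    (hR : Represents X ℓ Q) (hB : NothingBetween X ℓ) {n : ℕ} (U : Fin (n + 1) → Submodule K V)
    (hU : ∀ i, X.StableUnder ⊤ (U i)) (hs : StrictMono U) : n ≤ ∑ i, drop X (Q i) := by
  have h1 : ∀ k (hk : k < n + 1), k ≤ tot X Q (U ⟨k, hk⟩) := by
    intro k
    induction k with
    | zero => intro _; exact Nat.zero_le _
    | succ k ih =>
      intro hk
      have h2 := ih (by omega)
      have h3 : U ⟨k, by omega⟩ < U ⟨k + 1, hk⟩ := hs (by
        rw [Fin.lt_def]
        exact Nat.lt_succ_self k)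
      have h4 := tot_lt hR (hU _) (hU _) h3 (hB _ _ (hU _) (hU _) h3)
      omega
  refine (h1 n (Nat.lt_succ_self n)).trans ?_
  rw [← tot_top]
  exact Finset.sum_le_sum fun i _ => step_le le_top

/-! ### Polarizations -/

theorem chi_ne (χ : GF F →* K) (g : GF F) : χ g ≠ 0 := by
  intro h
  have h1 : χ (g * g⁻¹) = 0 := by rw [map_mul, h, zero_mul]
  rw [mul_inv_cancel, map_one] at h1
  exact one_ne_zero h1

variable {X : Rep F K V} {ω : V →ₗ[K] V →ₗ[K] K} {χ : GF F →* K} {ℓ r : ℕ}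
  {Q : Fin r → Ideal (OO F)}

/-- the form is reflexive -/
theorem refl (hω : Polarization X ω χ) {x y : V} (h : ω x y = 0) : ω y x = 0 := by
  rcases hω.symmetric with h1 | h1
  · rw [h1, h]
  · rw [h1, h, neg_zero]

theorem perp_stable (hω : Polarization X ω χ) {U : Submodule K V} (hU : X.StableUnder ⊤ U) :
    X.StableUnder ⊤ (perp ω U) := by
  intro g _ x hx y hy
  have h1 := hω.similitude g x (X.ρ g⁻¹ y)
  rw [CN.rho_inv, hx _ (hU g⁻¹ (Subgroup.mem_top _) y hy), mul_zero] at h1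
  exact h1

/-- isotropic stable subspaces -/
theorem isotropic_fixed (hR : Represents X ℓ Q)
    (hA : ∀ i, Anisotropic X ω (Q i)) {U : Submodule K V} (hU : X.StableUnder ⊤ U)
    (h0 : ∀ x ∈ U, ∀ y ∈ U, ω x y = 0) {σ : GF F} (hσ : AwayInertia ℓ σ) {x : V} (hx : x ∈ U) :
    X.ρ σ x = x := by
  refine conj_fix hR hU (fun i => hA i U (fun g _ x hx => hU g (Subgroup.mem_top g) x hx) ?_) hσ hx
  intro τ _ x hx y hy
  exact h0 _ (U.sub_mem (hU τ (Subgroup.mem_top τ) x hx) hx) y hy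

theorem perp_disjoint (hω : Polarization X ω χ) (hR : Represents X ℓ Q)
    (hA : ∀ i, Anisotropic X ω (Q i)) (hF : NothingUnramified X ℓ) {U : Submodule K V}
    (hU : X.StableUnder ⊤ U) : U ⊓ perp ω U = ⊥ := by
  refine hF _ (fun g hg x hx => ⟨hU g hg x hx.1, perp_stable hω hU g hg x hx.2⟩) ?_
  intro σ hσ x hx
  exact isotropic_fixed hR hA (U := U ⊓ perp ω U)
    (fun g hg x hx => ⟨hU g hg x hx.1, perp_stable hω hU g hg x hx.2⟩)
    (fun x hx y hy => hx.2 y hy.1) hσ hx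

theorem perp_isCompl [FiniteDimensional K V] (hω : Polarization X ω χ) (hR : Represents X ℓ Q)
    (hA : ∀ i, Anisotropic X ω (Q i)) (hF : NothingUnramified X ℓ) {U : Submodule K V}
    (hU : X.StableUnder ⊤ U) : IsCompl U (perp ω U) := by
  have h1 : perp ω U = LinearMap.BilinForm.orthogonal ω U := by
    ext x
    exact ⟨fun h y hy => refl hω (h y hy), fun h y hy => refl hω (h y hy)⟩
  have hrefl : ω.IsRefl := fun x y h => refl hω h
  have h2 := perp_disjoint hω hR hA hF hU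
  rw [h1] at h2 ⊢
  exact (LinearMap.BilinForm.isCompl_orthogonal_iff_disjoint hrefl).2 (disjoint_iff.2 h2)

theorem between_of_aniso [FiniteDimensional K V] (hω : Polarization X ω χ)
    (hR : Represents X ℓ Q) (hA : ∀ i, Anisotropic X ω (Q i)) (hF : NothingUnramified X ℓ) :
    NothingBetween X ℓ := by
  intro U' U hU' hU hlt
  by_contra hcon
  push Not at hcon
  have hst : X.StableUnder ⊤ (U ⊓ perp ω U') := fun g hg x hx =>
    ⟨hU g hg x hx.1, perp_stable hω hU' g hg x hx.2⟩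
  have h1 := hF (U ⊓ perp ω U') hst (by
    intro σ hσ x hx
    have h2 : X.ρ σ x - x ∈ U' ⊓ perp ω U' := by
      refine ⟨hcon σ hσ x hx.1, Submodule.sub_mem _ ?_ hx.2⟩
      exact perp_stable hω hU' σ (Subgroup.mem_top σ) x hx.2
    rw [perp_disjoint hω hR hA hF hU', Submodule.mem_bot, sub_eq_zero] at h2
    exact h2)
  apply hlt.not_ge
  intro x hx
  have h3 : x ∈ U' ⊔ perp ω U' := by
    rw [(perp_isCompl hω hR hA hF hU').sup_eq_top]
    exact Submodule.mem_top
  obtain ⟨a, ha, b, hb, rfl⟩ := Submodule.mem_sup.1 h3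
  have h4 : b ∈ U ⊓ perp ω U' := by
    refine ⟨?_, hb⟩
    have := U.sub_mem hx (hlt.le ha)
    rwa [add_sub_cancel_left] at this
  rw [h1, Submodule.mem_bot] at h4
  rw [h4, add_zero]
  exact ha

/-- inertia groups which fix a hyperplane are anisotropic -/
theorem aniso_of_hyperplane [FiniteDimensional K V] (hω : Polarization X ω χ) {Q : Ideal (OO F)}
    (h : finrank K V ≤ finrank K (fixI X Q) + 1) (hχ : ∀ σ, InInertia Q σ → χ σ = 1) :
    Anisotropic X ω Q := by
  intro U _ h0 x hx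
  by_contra hne
  -- `V = fix + K x`
  have htop : fixI X Q ⊔ Submodule.span K {x} = ⊤ := by
    apply Submodule.eq_top_of_finrank_eq
    apply le_antisymm (Submodule.finrank_le _)
    have h1 : fixI X Q < fixI X Q ⊔ Submodule.span K {x} := by
      refine lt_of_le_of_ne le_sup_left fun heq => hne ?_
      rw [heq]
      exact Submodule.mem_sup_right (Submodule.mem_span_singleton_self x)
    have h2 := Submodule.finrank_lt_finrank_of_lt h1
    omega
  apply hne
  intro σ hσ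
  rw [← sub_eq_zero]
  apply hω.nondegenerate
  intro y
  have hy : y ∈ fixI X Q ⊔ Submodule.span K {x} := by
    rw [htop]
    exact Submodule.mem_top
  obtain ⟨a, ha, b, hb, rfl⟩ := Submodule.mem_sup.1 hy
  obtain ⟨c, rfl⟩ := Submodule.mem_span_singleton.1 hb
  rw [map_add, map_smul, h0 σ hσ x hx x hx, smul_zero, add_zero, map_sub, LinearMap.sub_apply]
  have h3 := hω.similitude σ x a
  rw [ha σ hσ, hχ σ hσ, one_mul] at h3
  rw [h3, sub_self]

/-- representatives of the bad places over the rational numbers -/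
theorem represents_rat {K V : Type} [Field K] [TopologicalSpace K] [AddCommGroup V] [Module K V]
    (X : Rep ℚ K V) (ℓ : ℕ) (S : Finset ℕ) (hS : ∀ p ∈ S, p.Prime ∧ p ≠ ℓ) (hℓ : ℓ.Prime)
    (hgood : ∀ Q : Ideal (OO ℚ), Q.IsMaximal → (ℓ : OO ℚ) ∉ Q → (∀ p ∈ S, (p : OO ℚ) ∉ Q) →
      ∀ σ, InInertia Q σ → X.ρ σ = 1) :
    ∃ Q : Fin S.card → Ideal (OO ℚ), Represents X ℓ Q ∧
      ∀ i, ∃ p ∈ S, (p : OO ℚ) ∈ Q i := by
  classical
  obtain ⟨e⟩ : Nonempty (Fin S.card ≃ S) := ⟨(Finset.equivFin S).symm⟩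
  have hex : ∀ p : S, ∃ Q : Ideal (OO ℚ), Q.IsMaximal ∧ ((p : ℕ) : OO ℚ) ∈ Q := by
    intro p
    obtain ⟨Q, h1, h2, -⟩ := (Pool.Agent.W571.FM.main (p : ℕ) (hS p p.2).1).1
    exact ⟨Q, h1, h2⟩
  choose Q hQ hpQ using hex
  have haway : ∀ p : S, (ℓ : OO ℚ) ∉ Q p := by
    intro p hmem
    have hcop : Nat.Coprime (p : ℕ) ℓ := (Nat.coprime_primes (hS p p.2).1 hℓ).2 (hS p p.2).2
    obtain ⟨a, b, hab⟩ := (Nat.isCoprime_iff_coprime.2 hcop)
    apply (hQ p).ne_top
    rw [Ideal.eq_top_iff_one]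
    have h1 : (a : OO ℚ) * ((p : ℕ) : OO ℚ) + (b : OO ℚ) * (ℓ : OO ℚ) = 1 := by
      have := congrArg (Int.cast : ℤ → OO ℚ) hab
      push_cast at this
      exact this
    rw [← h1]
    exact (Q p).add_mem ((Q p).mul_mem_left _ (hpQ p)) ((Q p).mul_mem_left _ hmem)
  refine ⟨fun i => Q (e i), ⟨fun i => hQ _, fun i => haway _, ?_⟩, fun i =>
    ⟨(e i : ℕ), (e i).2, hpQ _⟩⟩
  rintro σ ⟨Q', hQ', hℓ', hσ⟩
  by_cases hg : ∀ p ∈ S, (p : OO ℚ) ∉ Q'
  · exact Or.inl (hgood Q' hQ' hℓ' hg σ hσ)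
  · push Not at hg
    obtain ⟨p, hp, hpQ'⟩ := hg
    obtain ⟨t, ht⟩ := (Pool.Agent.W571.FM.main p (hS p hp).1).2 (Q ⟨p, hp⟩) Q' (hQ _) hQ'
      (hpQ ⟨p, hp⟩) hpQ'
    refine Or.inr ⟨e.symm ⟨p, hp⟩, t, ?_⟩
    rw [e.apply_symm_apply]
    exact ht σ hσ

end Run7.h293.AN

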