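import Pool.Agent.Run7.h293.CN.Defs

/-!
# Commutants, lengths and polarizations: definitions
-/

set_option autoImplicit false

namespace Run7.h293.AN

open Module Pool.Agent.W569.FM Run7.h293.TS Run7.h293.CN

variable {F K V V' : Type} [Field F] [Field K] [TopologicalSpace K] [AddCommGroup V]
  [Module K V] [AddCommGroup V'] [Module K V']

/-- The vectors fixed by the inertia group at `Q`. -/
def fixI (X : Rep F K V) (Q : Ideal (OO F)) : Submodule K V where
  carrier := {x | ∀ σ, InInertia Q σ → X.ρ σ x = x}
  add_mem' := fun {a b} ha hb σ hσ => by rw [map_add, ha σ hσ, hb σ hσ]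
  zero_mem' := fun _ _ => map_zero _
  smul_mem' := fun c {a} ha σ hσ => by rw [map_smul, ha σ hσ]

/-- The codimension of the space of the vectors fixed by the inertia group at `Q` (the exponent of the
conductor, if the ramification is tame). -/
noncomputable def drop (X : Rep F K V) (Q : Ideal (OO F)) : ℕ :=
  finrank K V - finrank K (fixI X Q)

/-- The prime ideals `Q i` do not lie above `ℓ`, and each element of an inertia group outside `ℓ` acts
trivially or is conjugate to an element of one of their inertia groups: they represent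
the bad places outside `ℓ`. -/
structure Represents (X : Rep F K V) (ℓ : ℕ) {r : ℕ} (Q : Fin r → Ideal (OO F)) : Prop where
  maximal : ∀ i, (Q i).IsMaximal
  away : ∀ i, (ℓ : OO F) ∉ Q i
  bad : ∀ σ, AwayInertia ℓ σ → X.ρ σ = 1 ∨ ∃ i g, InInertia (Q i) (g⁻¹ * σ * g)

/-- The inertia groups outside `ℓ` do not act trivially on nonzero stable subspaces. -/
def NothingUnramified (X : Rep F K V) (ℓ : ℕ) : Prop := ∀ U : Submodule K V, X.StableUnder ⊤ U →
  (∀ σ, AwayInertia ℓ σ → ∀ x ∈ U, X.ρ σ x = x) → U = ⊥

/-- The inertia groups outside `ℓ` do not act trivially on nonzero subquotients `U / U'`. -/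
def NothingBetween (X : Rep F K V) (ℓ : ℕ) : Prop := ∀ U' U : Submodule K V, X.StableUnder ⊤ U' →
  X.StableUnder ⊤ U → U' < U → ∃ σ, AwayInertia ℓ σ ∧ ∃ x ∈ U, X.ρ σ x - x ∉ U'

/-- The homomorphisms of representations of the subgroup `H`. -/
def homs (X : Rep F K V) (X' : Rep F K V') (H : Subgroup (GF F)) : Submodule K (V →ₗ[K] V') where
  carrier := {f | ∀ g ∈ H, ∀ x, f (X.ρ g x) = X'.ρ g (f x)}
  add_mem' := fun {a b} ha hb g hg x => by
    rw [LinearMap.add_apply, LinearMap.add_apply, ha g hg, hb g hg, map_add]
  zero_mem' := fun g _ x => by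
    rw [LinearMap.zero_apply, LinearMap.zero_apply, map_zero]
  smul_mem' := fun c {a} ha g hg x => by
    rw [LinearMap.smul_apply, LinearMap.smul_apply, ha g hg, map_smul]

/-- The direct sum. -/
noncomputable def sum (X : Rep F K V) (X' : Rep F K V') [IsTopologicalRing K] : Rep F K (V × V') where
  ρ := { toFun := fun g => (X.ρ g).prodMap (X'.ρ g)
         map_one' := by rw [map_one, map_one]; rfl
         map_mul' := fun a b => by rw [map_mul, map_mul]; rfl }
  continuous := fun ξ x => by
    have h : ∀ g, ξ (((X.ρ g).prodMap (X'.ρ g)) x) =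
        (ξ.comp (LinearMap.inl K V V')) (X.ρ g x.1) + (ξ.comp (LinearMap.inr K V V')) (X'.ρ g x.2) := by
      intro g
      rw [LinearMap.comp_apply, LinearMap.comp_apply, ← map_add, LinearMap.inl_apply,
        LinearMap.inr_apply, Prod.mk_add_mk, add_zero, zero_add]
      rfl
    change Continuous fun g => ξ (((X.ρ g).prodMap (X'.ρ g)) x)
    simp only [h]
    exact (X.continuous _ _).add (X'.continuous _ _)

/-- The base field has no unramified extensions, the inertia groups outside `ℓ` act unipotently, those
above `ℓ` are connected, and `H` has finite index; or `H` is the whole Galois group. -/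
def Admissible (X : Rep F K V) (ℓ : ℕ) (H : Subgroup (GF F)) : Prop :=
  H = ⊤ ∨ (NoUnramified F ∧ X.Unipotent ℓ ∧ X.ConnectedAt ℓ ∧ H.FiniteIndex)

/-- `ω` is a polarization with the multiplier `χ`: a nondegenerate symmetric or alternating form. -/
structure Polarization (X : Rep F K V) (ω : V →ₗ[K] V →ₗ[K] K) (χ : GF F →* K) : Prop where
  nondegenerate : ∀ x, (∀ y, ω x y = 0) → x = 0
  symmetric : (∀ x y, ω x y = ω y x) ∨ ∀ x y, ω x y = -ω y x
  similitude : ∀ g x y, ω (X.ρ g x) (X.ρ g y) = χ g * ω x y

/-- The monodromy at `Q` is anisotropic: if all the forms `ω (σ x - x) y`, `σ` in the inertia group at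
`Q`, vanish on a subspace `U` which is stable under the decomposition group at `Q` then the inertia group
acts trivially on `U`. -/
def Anisotropic (X : Rep F K V) (ω : V →ₗ[K] V →ₗ[K] K) (Q : Ideal (OO F)) : Prop :=
  ∀ U : Submodule K V, (∀ g : GF F, (∀ x, x ∈ Q ↔ g • x ∈ Q) → ∀ x ∈ U, X.ρ g x ∈ U) →
    (∀ σ, InInertia Q σ → ∀ x ∈ U, ∀ y ∈ U, ω (X.ρ σ x - x) y = 0) → U ≤ fixI X Q

/-- The orthogonal complement. -/
def perp (ω : V →ₗ[K] V →ₗ[K] K) (U : Submodule K V) : Submodule K V where
  carrier := {x | ∀ y ∈ U, ω x y = 0}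
  add_mem' := fun {a b} ha hb y hy => by
    rw [map_add, LinearMap.add_apply, ha y hy, hb y hy, add_zero]
  zero_mem' := fun y _ => by rw [map_zero, LinearMap.zero_apply]
  smul_mem' := fun c {a} ha y hy => by
    rw [map_smul, LinearMap.smul_apply, ha y hy, smul_zero]

/-- All homomorphisms for `H` are homomorphisms for the Galois group, and the dimension of their space is
at most the sum of the products of the codimensions for the two representations. -/
def HomBound (X : Rep F K V) (X' : Rep F K V') {r : ℕ} (Q : Fin r → Ideal (OO F))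
    (H : Subgroup (GF F)) : Prop :=
  homs X X' H = homs X X' ⊤ ∧ finrank K (homs X X' H) ≤ ∑ i, drop X (Q i) * drop X' (Q i)

/-- The length of each strictly increasing sequence of `H`-stable subspaces is at most the sum of the
codimensions. -/
def LengthBound (X : Rep F K V) {r : ℕ} (Q : Fin r → Ideal (OO F)) (H : Subgroup (GF F)) : Prop :=
  ∀ (n : ℕ) (U : Fin (n + 1) → Submodule K V), (∀ i, X.StableUnder H (U i)) → StrictMono U →
    n ≤ ∑ i, drop X (Q i)

/-- The orthogonal complements of all `H`-stable subspaces are complements (so the representation of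
`H` is semisimple), and they are stable under `H`. -/
def OrthogonallySemisimple (X : Rep F K V) (ω : V →ₗ[K] V →ₗ[K] K) (H : Subgroup (GF F)) : Prop :=
  ∀ U, X.StableUnder H U → X.StableUnder H (perp ω U) ∧ IsCompl U (perp ω U)

end Run7.h293.AN
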